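import Pool.Agent.Helper16.HR.Stmts

set_option autoImplicit false

namespace Pool.Helper16.HR

open Finset

section

variable {I V : Type} [Fintype I] [DecidableEq I] [Fintype V]

theorem step_ind {c c' : Finset I → (I → V) → ℕ} {T : Finset I} (h : c T = c' T) (a : ℕ) :
    ind c T a = ind c' T a := by
  funext x
  unfold ind
  rw [h]

/-- the energy of the sets of rank `j + 2` -/
noncomputable def stepEn (L : Finset (Finset I)) (rk : Finset I → ℕ) (j M : ℕ)
    (c0 b : Finset I → (I → V) → ℕ) : ℝ :=
  ∑ T ∈ L.filter (fun T => rk T = j + 2), ∑ a ∈ range M,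
    av (fun x => ce L b T (ind c0 T a) x ^ 2)

theorem step_le [Nonempty V] (L : Finset (Finset I)) (rk : Finset I → ℕ) (j M : ℕ)
    (c0 b : Finset I → (I → V) → ℕ) (h0 : Sys L c0 M) : stepEn L rk j M c0 b ≤ L.card := by
  unfold stepEn
  calc ∑ T ∈ L.filter (fun T => rk T = j + 2), ∑ a ∈ range M,
        av (fun x => ce L b T (ind c0 T a) x ^ 2)
      ≤ ∑ T ∈ L.filter (fun T => rk T = j + 2), (1 : ℝ) := by
        refine sum_le_sum (fun T hT => ?_)
        exact energy_le M (fun x => (h0 T (mem_filter.1 hT).1).2 x) b
    _ = ((L.filter (fun T => rk T = j + 2)).card : ℝ) := by simp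
    _ ≤ L.card := by exact_mod_cast card_le_card (filter_subset _ _)

/-- one term of the energy difference -/
theorem step_single (L : Finset (Finset I)) (rk : Finset I → ℕ) (j M : ℕ)
    (c0 b b' : Finset I → (I → V) → ℕ) (h : Ref L b' b) (T : Finset I) (hT : T ∈ L)
    (hr : rk T = j + 2) (a : ℕ) (ha : a < M) :
    av (fun x => ce L b' T (ind c0 T a) x ^ 2) - av (fun x => ce L b T (ind c0 T a) x ^ 2) ≤
      stepEn L rk j M c0 b' - stepEn L rk j M c0 b := by
  unfold stepEn
  rw [← sum_sub_distrib]
  have h1 : ∀ T' ∈ L.filter (fun T => rk T = j + 2), 0 ≤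
      ∑ a ∈ range M, av (fun x => ce L b' T' (ind c0 T' a) x ^ 2) -
        ∑ a ∈ range M, av (fun x => ce L b T' (ind c0 T' a) x ^ 2) := by
    intro T' _
    rw [← sum_sub_distrib]
    refine sum_nonneg (fun a _ => ?_)
    have := energy_mono (T := T') h (ind c0 T' a)
    linarith
  have h2 := single_le_sum h1 (mem_filter.2 ⟨hT, hr⟩)
  refine le_trans ?_ h2
  rw [← sum_sub_distrib]
  have h3 : ∀ a ∈ range M, 0 ≤ av (fun x => ce L b' T (ind c0 T a) x ^ 2) -
      av (fun x => ce L b T (ind c0 T a) x ^ 2) := by
    intro a _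
    have := energy_mono (T := T) h (ind c0 T a)
    linarith
  exact single_le_sum h3 (mem_range.2 ha)

end

theorem step_neta (q K : ℕ) (hK : 1 ≤ K) : (q : ℝ) < (Neta q K : ℝ) * eta q K ^ 2 := by
  unfold Neta eta
  have hK0 : (0 : ℝ) < K := by exact_mod_cast hK
  push_cast
  have h1 : (1 / (K : ℝ) ^ Eq' q) ^ 2 = 1 / (K : ℝ) ^ (2 * Eq' q) := by
    rw [div_pow, one_pow, ← pow_mul, mul_comm (Eq' q) 2]
  rw [h1]
  have h2 : 0 < (K : ℝ) ^ (2 * Eq' q) := by positivity
  rw [mul_one_div, lt_div_iff₀ h2]
  linarith

theorem step_phi_ge (q : ℕ) (F : ℕ → ℕ) (K : ℕ) : F K ≤ Phi q F K := by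
  unfold Phi
  exact Nat.le_mul_of_pos_right _ (by positivity)

theorem step_phi_mul (q : ℕ) (F : ℕ → ℕ) (K m : ℕ) (h : m ≤ F K) :
    m * 2 ^ Neta q m ≤ Phi q F K := by
  unfold Phi
  apply Nat.mul_le_mul h
  apply Nat.pow_le_pow_right (by norm_num)
  unfold Neta
  apply Nat.add_le_add_right
  apply Nat.mul_le_mul_left
  exact Nat.pow_le_pow_left h _

theorem st_STEP (hFINE : ST_FINE) : ST_STEP := by
  intro I V _ _ _ _ L rk hLat j F hF hFm hRP M hM c0 hc0
  set q := L.card with hq
  have hid : ∀ K, K ≤ Phi q F K := fun K => le_trans (hF K) (step_phi_ge q F K)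
  have hit : Monotone (fun n => (Phi q F)^[n]) := Function.monotone_iterate_of_id_le hid
  have hitM : ∀ m n, m ≤ n → (Phi q F)^[m] M ≤ (Phi q F)^[n] M := fun m n h => hit h M
  have hM0 : (0 : ℝ) < M := by
    have : 0 < M := by omega
    exact_mod_cast this
  -- main loop
  have loop : ∀ i : ℕ, i + 1 ≤ Nbet q M →
      (∃ (c : Finset I → (I → V) → ℕ) (Ms : ℕ → ℕ),
        (∀ r s, r ≤ s → Ms s ≤ Ms r) ∧ (∀ r, j + 1 < r → Ms r = M) ∧
        Ms 0 ≤ (Phi q F)^[Nbet q M] M ∧ Ref L c c0 ∧
        (∀ T ∈ L, j + 1 < rk T → c T = c0 T) ∧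
        (∀ T ∈ L, Dep T (c T) ∧ ∀ x, c T x < Ms (rk T)) ∧
        (∀ T ∈ L, rk T ≤ j + 1 + 1 → Reg L c T (bet q (Ms (rk T))) (eta q (Ms 0)))) ∨
      ∃ b : Finset I → (I → V) → ℕ, Sys L b ((Phi q F)^[i] M) ∧ Ref L b c0 ∧
        (∀ T ∈ L, j + 1 < rk T → b T = c0 T) ∧ (i : ℝ) * bet q M ≤ stepEn L rk j M c0 b := by
    intro i
    induction i with
    | zero =>
      intro _
      right
      refine ⟨c0, hc0, Ref.refl, fun _ _ _ => rfl, ?_⟩
      rw [Nat.cast_zero, zero_mul]
      unfold stepEn
      exact sum_nonneg (fun T _ => sum_nonneg (fun a _ => av_nonneg (fun x => sq_nonneg _)))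
    | succ i ih =>
      intro hi
      rcases ih (by omega) with hans | ⟨b, hb1, hb2, hb3, hb4⟩
      · exact Or.inl hans
      set K := (Phi q F)^[i] M with hK
      have hMK : M ≤ K := hitM 0 i (Nat.zero_le i)
      obtain ⟨c, Ms, g1, g2, g3, g4, g5, g6, g7⟩ := hRP K (le_trans hM hMK) b hb1
      have hKMs : K ≤ Ms 0 := by
        rw [← g2 (j + 1) (by omega)]
        exact g1 0 (j + 1) (Nat.zero_le _)
      have hMs1 : 1 ≤ Ms 0 := by omega
      have hSys : Sys L c (Ms 0) := fun T hT =>
        ⟨(g6 T hT).1, fun x => lt_of_lt_of_le ((g6 T hT).2 x) (g1 0 (rk T) (Nat.zero_le _))⟩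
      have hMs0 : (0 : ℝ) < (Ms 0 : ℝ) := by exact_mod_cast hMs1
      have heta : 0 < eta q (Ms 0) := by
        unfold eta
        positivity
      obtain ⟨c', f1, f2, f3, f4⟩ := hFINE I V L rk hLat c (Ms 0) hSys (j + 1)
        (Neta q (Ms 0)) (eta q (Ms 0)) heta (step_neta q (Ms 0) hMs1)
      have hRcb : Ref L c' b := Ref.trans f2 g4
      by_cases hcase : stepEn L rk j M c0 c' - stepEn L rk j M c0 b < bet q M
      · left
        refine ⟨c, fun r => if j + 1 < r then M else Ms r, ?_, ?_, ?_, Ref.trans g4 hb2, ?_, ?_,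
          ?_⟩
        · intro r s hrs
          show (if j + 1 < s then M else Ms s) ≤ (if j + 1 < r then M else Ms r)
          by_cases h1 : j + 1 < s
          · by_cases h2 : j + 1 < r
            · rw [if_pos h1, if_pos h2]
            · rw [if_pos h1, if_neg h2]
              have h3 := g1 r (j + 1) (by omega)
              rw [g2 (j + 1) (by omega)] at h3
              exact le_trans hMK h3
          · rw [if_neg h1, if_neg (by omega)]
            exact g1 r s hrs
        · intro r hr
          exact if_pos hr
        · show (if j + 1 < 0 then M else Ms 0) ≤ _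
          rw [if_neg (by omega)]
          calc Ms 0 ≤ F K := g3
            _ ≤ Phi q F K := step_phi_ge q F K
            _ = (Phi q F)^[i + 1] M := by rw [Function.iterate_succ_apply']
            _ ≤ (Phi q F)^[Nbet q M] M := hitM _ _ (by omega)
        · intro T hT hr
          rw [g5 T hT (by omega), hb3 T hT hr]
        · intro T hT
          refine ⟨(g6 T hT).1, fun x => ?_⟩
          show c T x < (if j + 1 < rk T then M else Ms (rk T))
          by_cases h1 : j + 1 < rk T
          · rw [if_pos h1, g5 T hT (by omega), hb3 T hT h1]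
            exact (hc0 T hT).2 x
          · rw [if_neg h1]
            exact (g6 T hT).2 x
        · intro T hT hr
          show Reg L c T (bet q (if j + 1 < rk T then M else Ms (rk T)))
            (eta q (if j + 1 < 0 then M else Ms 0))
          rw [if_neg (by omega : ¬ j + 1 < 0)]
          by_cases h1 : j + 1 < rk T
          · rw [if_pos h1]
            have hrT : rk T = j + 2 := by omega
            have hcT : c T = c0 T := by rw [g5 T hT (by omega), hb3 T hT h1]
            have hbet : 0 ≤ bet q M := by
              unfold bet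
              positivity
            intro a
            refine ⟨ce L c' T (ind c T a), ce_dep (fun U hU => (f1 U hU).1) _,
              fun x => ⟨ce_nonneg (ind_nonneg a) x, ce_le_one (ind_le_one a) x⟩, ?_,
              f4 T hT (by omega) a⟩
            rw [mono f2, step_ind hcT a]
            by_cases ha : a < M
            · have h2 := step_single L rk j M c0 b c' hRcb T hT hrT a ha
              have h3 := energy_mono (T := T) g4 (ind c0 T a)
              linarith
            · have h0 : ind c0 T a = fun _ => (0 : ℝ) := by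
                funext x
                unfold ind
                rw [if_neg]
                have := (hc0 T hT).2 x
                omega
              have h4 : ∀ b' : Finset I → (I → V) → ℕ,
                  av (fun x => ce L b' T (ind c0 T a) x ^ 2) = 0 := by
                intro b'
                rw [h0]
                have h5 : (fun x : I → V => ce L b' T (fun _ => (0 : ℝ)) x ^ 2) =
                    fun _ => (0 : ℝ) := by
                  funext x
                  unfold ce
                  simp
                rw [h5]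
                unfold av
                simp
              rw [h4, h4]
              simpa using hbet
          · rw [if_neg h1]
            exact g7 T hT (by omega)
      · right
        push Not at hcase
        refine ⟨c', ?_, Ref.trans hRcb hb2, ?_, ?_⟩
        · rw [Function.iterate_succ_apply']
          exact Sys.mono f1 (step_phi_mul q F K (Ms 0) g3)
        · intro T hT hr
          rw [f3 T hT hr, g5 T hT (by omega), hb3 T hT hr]
        · push_cast
          linarith
  rcases loop (q * M ^ (2 * Gq q + 3) + 1) (by unfold Nbet; omega) with h | ⟨b, _, _, _, h4⟩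
  · exact h
  · exfalso
    have h5 := step_le L rk j M c0 b hc0
    have h6 : (q : ℝ) < ((q * M ^ (2 * Gq q + 3) + 1 : ℕ) : ℝ) * bet q M := by
      unfold bet
      have h2 : 0 < (M : ℝ) ^ (2 * Gq q + 3) := by positivity
      rw [mul_one_div, lt_div_iff₀ h2]
      push_cast
      linarith
    linarith

end Pool.Helper16.HR
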